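import Mathlib
import Pool.Agent.U37.MQ.Stm

set_option autoImplicit false

/-! Project MQ, package CNT: count of the bad circles through a point. -/

namespace Pool.Agent.U354.MQ

open Finset Equiv Pool.Agent.U37.MQ Pool.Agent.N606.ST Pool.Agent.U671.PG

open scoped Classical

theorem t_CNT : S_INC → S_CL → S_OV → S_PAS → S_CNT := by
  intro hINC hCL hOV hPAS V _ n B hn hnp hI k hk X hX
  have hInc := hINC V n B (by omega) hI
  obtain ⟨V', _, B', pt, dir, ln, inf, hC⟩ := hCL V n B X (by omega) hI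
  have hOval := (hOV V V' n B X B' pt dir ln inf (by omega) hInc hC k hk hX).1
  have hP := pascal hC.plane hOval hn hnp
  set bad := B.filter (fun g => X ∈ g ∧ (fails B g k).Nonempty) with hbad
  have hL : ∀ b ∈ insert inf (bad.image ln), b.card = n + 1 := by
    intro b hb
    apply hC.plane.2.1
    rw [hC.lines]
    rw [mem_insert, mem_image] at hb
    rcases hb with rfl | ⟨g, hg, rfl⟩
    · exact Or.inl rfl
    · rw [hbad, mem_filter] at hg
      exact Or.inr ⟨g, hg.1, hg.2.1, rfl⟩
  have hsub : {t : V' × V' × V' | Fails B' (k.image pt) t.1 t.2.1 t.2.2} ⊆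
      (((insert inf (bad.image ln)).biUnion fun b => b ×ˢ (b ×ˢ b) :
        Finset (V' × V' × V')) : Set (V' × V' × V')) := by
    rintro ⟨P, Q, R⟩ ht
    have hF : Fails B' (k.image pt) P Q R := ht
    obtain ⟨-, -, -, ⟨b, hb, h1, h2, h3⟩, -⟩ := id hF
    rw [Finset.mem_coe, mem_biUnion]
    refine ⟨b, ?_, mem_product.2 ⟨h1, mem_product.2 ⟨h2, h3⟩⟩⟩
    rw [hC.lines] at hb
    rw [mem_insert, mem_image]
    rcases hb with rfl | ⟨g, hg, hXg, rfl⟩
    · exact Or.inl rfl
    · refine Or.inr ⟨g, ?_, rfl⟩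
      rw [hbad, mem_filter]
      refine ⟨hg, hXg, ?_⟩
      rw [nonempty_iff_ne_empty]
      intro h0
      exact hPAS V V' n B X B' pt dir ln inf (by omega) hInc hC k hk hX g hg hXg h0 P h1 Q h2 R h3
        hF
  have h1 : {t : V' × V' × V' | Fails B' (k.image pt) t.1 t.2.1 t.2.2}.ncard ≤
      (bad.card + 1) * (n + 1) ^ 3 := by
    calc {t : V' × V' × V' | Fails B' (k.image pt) t.1 t.2.1 t.2.2}.ncard
        ≤ (((insert inf (bad.image ln)).biUnion fun b => b ×ˢ (b ×ˢ b) :
        Finset (V' × V' × V')) : Set (V' × V' × V')).ncard :=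
          Set.ncard_le_ncard hsub (Finset.finite_toSet _)
      _ = ((insert inf (bad.image ln)).biUnion fun b => b ×ˢ (b ×ˢ b) :
        Finset (V' × V' × V')).card := Set.ncard_coe_finset _
      _ ≤ (insert inf (bad.image ln)).card * (n + 1) ^ 3 := by
          apply card_biUnion_le_card_mul
          intro b hb
          rw [card_product, card_product, hL b hb]
          exact le_of_eq (by ring)
      _ ≤ (bad.card + 1) * (n + 1) ^ 3 := by
          apply Nat.mul_le_mul_right
          exact (card_insert_le _ _).trans (Nat.add_le_add_right card_image_le 1)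
  have h2 : n ^ 5 ≤ 100000 * ((bad.card + 1) * (n + 1) ^ 3) :=
    hP.trans (Nat.mul_le_mul_left _ h1)
  have h3 : 10 * (n + 1) ^ 3 ≤ 11 * n ^ 3 := by
    have e1 : 100 * n ^ 2 ≤ n ^ 3 := by
      rw [pow_succ n 2, mul_comm (n ^ 2) n]
      exact Nat.mul_le_mul_right _ hn
    have e2 : 100 * n ≤ n ^ 2 := by
      rw [sq]
      exact Nat.mul_le_mul_right _ hn
    nlinarith
  have h4 : n ^ 3 * n ^ 2 ≤ n ^ 3 * (110000 * (bad.card + 1)) := by
    have e1 : 100000 * ((bad.card + 1) * (n + 1) ^ 3) * 10 =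
        100000 * (bad.card + 1) * (10 * (n + 1) ^ 3) := by ring
    have e2 : 100000 * (bad.card + 1) * (10 * (n + 1) ^ 3) ≤
        100000 * (bad.card + 1) * (11 * n ^ 3) := Nat.mul_le_mul_left _ h3
    have e3 : n ^ 3 * n ^ 2 = n ^ 5 := by ring
    have e4 : n ^ 3 * (110000 * (bad.card + 1)) * 10 =
        100000 * (bad.card + 1) * (11 * n ^ 3) := by ring
    omega
  exact Nat.le_of_mul_le_mul_left h4 (by positivity)

end Pool.Agent.U354.MQ
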